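import Mathlib

/-!
# Non-primitive weird numbers and the largest prime factor

If `w` is a non-primitive weird number and `w / P(w)` is not weird, then `w` is divisible by the
square of an odd prime `r < P(w)`; more precisely `w` has a divisor `r * v`, again a counterexample,
where `v` is a primitive weird number, `r` divides `v`, `P(v) = P(w)` (with the same exponent) and
`σ(r^c) > σ(P(w)^a)` for the exact powers `r^c`, `P(w)^a` dividing `r * v`.
-/

set_option autoImplicit false

namespace Pool.Agent.Results.MP_4efad7_nt.LargestPrimeReduction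

open Nat Finset ArithmeticFunction

/-- A multiple of a pseudoperfect number is pseudoperfect. -/
theorem pseudoperfect_of_dvd {m n : ℕ} (hm : Pseudoperfect m) (hmn : m ∣ n) (hn : 0 < n) :
    Pseudoperfect n := by
  obtain ⟨hm0, s, hs, hsum⟩ := hm
  obtain ⟨k, rfl⟩ := hmn
  have hk : 0 < k := Nat.pos_of_mul_pos_left hn |> fun h => by
    rcases Nat.eq_zero_or_pos k with h0 | h0
    · simp [h0] at hn
    · exact h0
  refine ⟨hn, s.image (fun d => d * k), ?_, ?_⟩
  · intro x hx
    obtain ⟨d, hd, rfl⟩ := Finset.mem_image.1 hx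
    have := Nat.mem_properDivisors.1 (hs hd)
    exact Nat.mem_properDivisors.2 ⟨Nat.mul_dvd_mul_right this.1 k,
      Nat.mul_lt_mul_of_pos_right this.2 hk⟩
  · rw [Finset.sum_image (fun a _ b _ h => Nat.eq_of_mul_eq_mul_right hk h), ← Finset.sum_mul, hsum]

/-- An abundant divisor of a weird number is weird. -/
theorem weird_of_abundant_dvd {d n : ℕ} (hn : Weird n) (hd : Abundant d) (hdn : d ∣ n) :
    Weird d :=
  ⟨hd, fun h => hn.2 (pseudoperfect_of_dvd h hdn hn.pos)⟩

/-- Every number below `2 ^ (n + 1)` is a sum of distinct powers of two with exponents `≤ n`. -/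
theorem exists_bits (n : ℕ) : ∀ m : ℕ, m < 2 ^ n →
    ∃ s ⊆ Finset.range n, ∑ i ∈ s, 2 ^ i = m := by
  induction n with
  | zero => intro m hm; exact ⟨∅, by simp, by simp at hm ⊢; omega⟩
  | succ n ih =>
    intro m hm
    rcases lt_or_ge m (2 ^ n) with h | h
    · obtain ⟨s, hs, h1⟩ := ih m h
      exact ⟨s, hs.trans (Finset.range_subset_range.2 (Nat.le_succ n)), h1⟩
    · obtain ⟨s, hs, h1⟩ := ih (m - 2 ^ n) (by rw [pow_succ] at hm; omega)
      refine ⟨insert n s, ?_, ?_⟩
      · intro x hx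
        rcases Finset.mem_insert.1 hx with rfl | hx
        · simp
        · have := Finset.mem_range.1 (hs hx); exact Finset.mem_range.2 (by omega)
      · rw [Finset.sum_insert (fun h => by have := Finset.mem_range.1 (hs h); omega), h1]
        omega

/-- `2 ^ n * p` is pseudoperfect for an odd number `1 < p < 2 ^ (n + 1)`. -/
theorem pseudoperfect_two_pow_mul {n p : ℕ} (hp : Odd p) (hp1 : 1 < p) (hlt : p < 2 ^ (n + 1)) :
    Pseudoperfect (2 ^ n * p) := by
  obtain ⟨s, hs, hsum⟩ := exists_bits (n + 1) p hlt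
  refine ⟨by positivity, s.image (fun i => 2 ^ i) ∪ (Finset.range n).image (fun i => 2 ^ i * p),
    ?_, ?_⟩
  · intro x hx
    rcases Finset.mem_union.1 hx with h | h
    · obtain ⟨i, hi, rfl⟩ := Finset.mem_image.1 h
      have hi' := Finset.mem_range.1 (hs hi)
      refine Nat.mem_properDivisors.2 ⟨(pow_dvd_pow 2 (by omega)).mul_right p, ?_⟩
      calc 2 ^ i ≤ 2 ^ n := Nat.pow_le_pow_right (by norm_num) (by omega)
        _ = 2 ^ n * 1 := (mul_one _).symm
        _ < 2 ^ n * p := Nat.mul_lt_mul_of_pos_left hp1 (by positivity)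
    · obtain ⟨i, hi, rfl⟩ := Finset.mem_image.1 h
      have hi' := Finset.mem_range.1 hi
      refine Nat.mem_properDivisors.2 ⟨Nat.mul_dvd_mul_right (pow_dvd_pow 2 hi'.le) p, ?_⟩
      exact Nat.mul_lt_mul_of_pos_right (Nat.pow_lt_pow_right (by norm_num) hi') (by omega)
  · rw [Finset.sum_union]
    · rw [Finset.sum_image (fun a _ b _ h => Nat.pow_right_injective le_rfl h), hsum,
        Finset.sum_image (fun a _ b _ h => Nat.pow_right_injective le_rfl
          (Nat.eq_of_mul_eq_mul_right (by omega) h)), ← Finset.sum_mul,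
        Nat.geomSum_eq le_rfl]
      simp only [Nat.add_one_sub_one, Nat.div_one]
      have : 1 ≤ 2 ^ n := Nat.one_le_two_pow
      nth_rewrite 1 [← one_mul p]
      rw [← add_mul]; congr 1; omega
    · rw [Finset.disjoint_left]
      intro x hx hx'
      obtain ⟨i, -, rfl⟩ := Finset.mem_image.1 hx
      obtain ⟨j, -, h⟩ := Finset.mem_image.1 hx'
      have h1 : p ∣ 2 ^ i := ⟨2 ^ j, by rw [← h, mul_comm]⟩
      obtain ⟨k, -, hk⟩ := (Nat.dvd_prime_pow Nat.prime_two).1 h1
      rcases Nat.eq_zero_or_pos k with h0 | h0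
      · rw [h0] at hk; omega
      · rw [hk] at hp
        exact (Nat.not_odd_iff_even.2 (Nat.even_pow.2 ⟨even_two, h0.ne'⟩)) hp

theorem sigma_succ {q c : ℕ} (hq : q.Prime) : sigma 1 (q ^ (c + 1)) = q * sigma 1 (q ^ c) + 1 := by
  rw [sigma_one_apply_prime_pow hq, sigma_one_apply_prime_pow hq, geom_sum_succ]

/-- Comparison of the abundancies after removing one factor `r` or one factor `p`. -/
theorem core {a c m p r : ℕ} (hp : p.Prime) (hr : r.Prime) (hpr : p ≠ r) (hpm : ¬ p ∣ m)
    (hrm : ¬ r ∣ m) (h1 : Abundant (p ^ (a + 1) * (r ^ c * m)))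
    (h2 : ¬ Abundant (p ^ a * (r ^ (c + 1) * m))) :
    sigma 1 (p ^ (a + 1)) < sigma 1 (r ^ (c + 1)) := by
  have hcop1 : ∀ x y : ℕ, Nat.Coprime (p ^ x) (r ^ y * m) := fun x y =>
    Nat.Coprime.mul_right (((Nat.coprime_primes hp hr).2 hpr).pow x y)
      (((Nat.Prime.coprime_iff_not_dvd hp).2 hpm).pow_left x)
  have hcop2 : ∀ y : ℕ, Nat.Coprime (r ^ y) m := fun y =>
    ((Nat.Prime.coprime_iff_not_dvd hr).2 hrm).pow_left y
  rw [abundant_iff_sum_divisors, ← sigma_one_apply,
    isMultiplicative_sigma.map_mul_of_coprime (hcop1 _ _),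
    isMultiplicative_sigma.map_mul_of_coprime (hcop2 _)] at h1
  rw [abundant_iff_sum_divisors, ← sigma_one_apply,
    isMultiplicative_sigma.map_mul_of_coprime (hcop1 _ _),
    isMultiplicative_sigma.map_mul_of_coprime (hcop2 _), not_lt] at h2
  have eB := sigma_succ (c := a) hp
  have eA := sigma_succ (c := c) hr
  set A := sigma 1 (r ^ (c + 1)) with hA
  set B := sigma 1 (p ^ (a + 1)) with hB
  set A' := sigma 1 (r ^ c) with hA'
  set B' := sigma 1 (p ^ a) with hB'
  set M := sigma 1 m with hM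
  -- `r * h1` and `p * h2`
  have k1 : 2 * (p ^ (a + 1) * (r ^ (c + 1) * m)) < B * ((r * A') * M) := by
    have := Nat.mul_lt_mul_of_pos_left h1 hr.pos
    calc 2 * (p ^ (a + 1) * (r ^ (c + 1) * m)) = r * (2 * (p ^ (a + 1) * (r ^ c * m))) := by ring
      _ < r * (B * (A' * M)) := this
      _ = B * ((r * A') * M) := by ring
  have k2 : (p * B') * (A * M) ≤ 2 * (p ^ (a + 1) * (r ^ (c + 1) * m)) := by
    have := Nat.mul_le_mul_left p h2
    calc (p * B') * (A * M) = p * (B' * (A * M)) := by ring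
      _ ≤ p * (2 * (p ^ a * (r ^ (c + 1) * m))) := this
      _ = 2 * (p ^ (a + 1) * (r ^ (c + 1) * m)) := by ring
  have k3 : (p * B') * A * M < B * (r * A') * M := by
    calc (p * B') * A * M = (p * B') * (A * M) := by ring
      _ ≤ _ := k2
      _ < B * ((r * A') * M) := k1
      _ = B * (r * A') * M := by ring
  have k4 : (p * B') * A < B * (r * A') := Nat.lt_of_mul_lt_mul_right k3
  rw [eA, eB] at k4
  rw [eA, eB]
  nlinarith

/-- **Main theorem.** Let `w` be a weird number with a weird proper divisor, `p` its largest prime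
factor, and suppose that `w / p` is not weird. Then there are a primitive weird number `v` and a
prime `r` with `2 < r < p`, `r ∣ v`, `r * v ∣ w`, such that `r * v` is weird and `r * v / p` is not
weird (it is not even abundant); moreover `p` divides `v` to the same power as `w` and
`σ (p ^ a) < σ (r ^ c)` for the exact powers `p ^ a`, `r ^ c` dividing `r * v`. -/
theorem result (w p : ℕ) (hw : Weird w) (hnp : ∃ d, d ∣ w ∧ d < w ∧ Weird d)
    (hp : p.Prime) (hpw : p ∣ w) (hmax : ∀ q : ℕ, q.Prime → q ∣ w → q ≤ p)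
    (hnot : ¬ Weird (w / p)) :
    ∃ v r : ℕ, Weird v ∧ (∀ d, d ∣ v → d < v → ¬ Weird d) ∧
      r.Prime ∧ 2 < r ∧ r < p ∧ r ∣ v ∧ r * v ∣ w ∧ r ^ 2 ∣ w ∧
      Weird (r * v) ∧ ¬ Weird (r * v / p) ∧ ¬ Abundant (r * v / p) ∧
      v.factorization p = w.factorization p ∧
      sigma 1 (p ^ (r * v).factorization p) < sigma 1 (r ^ (r * v).factorization r) := by
  classical
  have hw0 : 0 < w := hw.pos
  have hwp0 : 0 < w / p := Nat.div_pos (Nat.le_of_dvd hw0 hpw) hp.pos
  have hwp : w / p ∣ w := Nat.div_dvd_of_dvd hpw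
  have hna : ¬ Abundant (w / p) := fun h => hnot (weird_of_abundant_dvd hw h hwp)
  -- the least weird divisor
  have hex : ∃ d, d ∣ w ∧ d < w ∧ Weird d := hnp
  set v := Nat.find hex with hv
  obtain ⟨hvw, hvlt, hvW⟩ := Nat.find_spec hex
  rw [← hv] at hvw hvlt hvW
  have hv0 : 0 < v := hvW.pos
  have hprim : ∀ d, d ∣ v → d < v → ¬ Weird d := fun d hd hlt hdW =>
    Nat.find_min hex hlt ⟨hd.trans hvw, hlt.trans hvlt, hdW⟩
  have hvp : ¬ v ∣ w / p := fun h => hna (hvW.1.of_dvd h hwp0.ne')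
  -- a prime factor of the quotient
  obtain ⟨k, hk⟩ := hvw
  have hk1 : k ≠ 1 := by rintro rfl; rw [mul_one] at hk; omega
  obtain ⟨r, hr, hrk⟩ := Nat.exists_prime_and_dvd hk1
  obtain ⟨l, rfl⟩ := hrk
  have hrvw : r * v ∣ w := ⟨l, by rw [hk]; ring⟩
  have hrw : r ∣ w := (Dvd.intro v rfl).trans hrvw
  have hpk : ¬ p ∣ r * l := by
    rintro ⟨t, ht⟩
    apply hvp
    rw [hk, ht]
    refine ⟨t, ?_⟩
    rw [show v * (p * t) = p * (v * t) by ring, Nat.mul_div_cancel_left _ hp.pos]
  have hrp : r ≠ p := by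
    rintro rfl; exact hpk (Dvd.intro l rfl)
  have hpv : p ∣ v := by
    rcases (Nat.Prime.dvd_mul hp).1 (hk ▸ hpw : p ∣ v * (r * l)) with h | h
    · exact h
    · exact absurd h hpk
  have hrltp : r < p := lt_of_le_of_ne (hmax r hr hrw) hrp
  have hrv0 : 0 < r * v := Nat.mul_pos hr.pos hv0
  have hrvA : Abundant (r * v) := hvW.1.mul_left hr.ne_zero
  have hrvW : Weird (r * v) := weird_of_abundant_dvd hw hrvA hrvw
  have hprv : p ∣ r * v := hpv.mul_left r
  have hdiv : r * v / p ∣ w / p := Nat.div_dvd_div hprv hrvw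
  have hnaA : ¬ Abundant (r * v / p) := fun h => hna (h.of_dvd hdiv hwp0.ne')
  have hfac : v.factorization p = w.factorization p := by
    have hl0 : r * l ≠ 0 := by rintro h; rw [h, mul_zero] at hk; omega
    rw [hk, Nat.factorization_mul hv0.ne' hl0, Finsupp.add_apply,
      Nat.factorization_eq_zero_of_not_dvd hpk, add_zero]
  -- decomposition of `v`
  obtain ⟨a, m1, hm1, hva⟩ := Nat.exists_eq_pow_mul_and_not_dvd hv0.ne' p hp.ne_one
  have hm10 : m1 ≠ 0 := by rintro rfl; simp at hm1
  obtain ⟨c, m, hm, hvc⟩ := Nat.exists_eq_pow_mul_and_not_dvd hm10 r hr.ne_one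
  have hm0 : m ≠ 0 := by rintro rfl; simp at hm
  have hpm : ¬ p ∣ m := fun h => hm1 (hvc ▸ h.mul_left _)
  have hveq : v = p ^ a * (r ^ c * m) := by rw [hva, hvc]
  have ha : a ≠ 0 := by
    rintro rfl
    rw [pow_zero, one_mul] at hva
    exact hm1 (hva ▸ hpv)
  obtain ⟨a', rfl⟩ : ∃ a', a = a' + 1 := ⟨a - 1, by omega⟩
  have hrveq : r * v = p ^ (a' + 1) * (r ^ (c + 1) * m) := by rw [hveq]; ring
  have hpp : 0 < p := hp.pos
  have hrr : 0 < r := hr.pos
  have hmm : 0 < m := Nat.pos_of_ne_zero hm0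
  have hrvp : r * v / p = p ^ a' * (r ^ (c + 1) * m) := by
    rw [hrveq, pow_succ' p, mul_assoc, Nat.mul_div_cancel_left _ hp.pos]
  have hcore : sigma 1 (p ^ (a' + 1)) < sigma 1 (r ^ (c + 1)) := by
    refine core hp hr hrp.symm hpm hm ?_ ?_
    · rw [← hveq]; exact hvW.1
    · rw [← hrvp]; exact hnaA
  have hfp : (r * v).factorization p = a' + 1 := by
    rw [hrveq, Nat.factorization_mul (by positivity) (by positivity), Finsupp.add_apply,
      hp.factorization_pow, Finsupp.single_eq_same, Nat.factorization_eq_zero_of_not_dvd, add_zero]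
    intro h
    rcases (Nat.Prime.dvd_mul hp).1 h with h | h
    · exact hrp ((Nat.prime_dvd_prime_iff_eq hp hr).1 (hp.dvd_of_dvd_pow h)).symm
    · exact hpm h
  have hfr : (r * v).factorization r = c + 1 := by
    rw [hrveq, Nat.factorization_mul (by positivity) (by positivity), Finsupp.add_apply,
      Nat.factorization_eq_zero_of_not_dvd, zero_add,
      Nat.factorization_mul (by positivity) hm0, Finsupp.add_apply,
      hr.factorization_pow, Finsupp.single_eq_same, Nat.factorization_eq_zero_of_not_dvd hm,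
      add_zero]
    intro h
    exact hrp ((Nat.prime_dvd_prime_iff_eq hr hp).1 (hr.dvd_of_dvd_pow h))
  -- lower bound for `σ (p ^ (a' + 1))`
  have hlow : p + 1 ≤ sigma 1 (p ^ (a' + 1)) := by
    rw [sigma_succ hp]
    have : 1 ≤ sigma 1 (p ^ a') := by
      rw [sigma_one_apply_prime_pow hp, geom_sum_succ]
      omega
    nlinarith
  have hc : c ≠ 0 := by
    rintro rfl
    rw [sigma_succ (c := 0) hr] at hcore
    simp at hcore
    omega
  have hrv : r ∣ v := by
    rw [hveq]
    exact ((dvd_pow_self r hc).mul_right m).mul_left _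
  have hr2 : r ≠ 2 := by
    rintro rfl
    have h2 : sigma 1 (2 ^ (c + 1)) < 2 ^ (c + 1 + 1) := by
      rw [sigma_one_apply_prime_pow Nat.prime_two]
      have := Nat.geomSum_eq (m := 2) le_rfl (c + 1 + 1)
      rw [this]
      simp only [Nat.add_one_sub_one, Nat.div_one]
      exact Nat.sub_lt (by positivity) one_pos
    have hodd : Odd p := hp.odd_of_ne_two hrp.symm
    have hps : Pseudoperfect (2 ^ (c + 1) * p) :=
      pseudoperfect_two_pow_mul hodd hp.one_lt (by omega)
    refine hrvW.2 (pseudoperfect_of_dvd hps ?_ hrv0)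
    rw [hrveq]
    exact ⟨p ^ a' * m, by ring⟩
  refine ⟨v, r, hvW, hprim, hr, lt_of_le_of_ne hr.two_le hr2.symm, hrltp, hrv, hrvw, ?_, hrvW,
    fun h => hnaA h.1, hnaA, hfac, ?_⟩
  · refine dvd_trans ?_ hrvw
    rw [sq]; exact Nat.mul_dvd_mul_left r hrv
  · rw [hfp, hfr]; exact hcore

end Pool.Agent.Results.MP_4efad7_nt.LargestPrimeReduction
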